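import Mathlib

set_option autoImplicit false

/-!
# Fourteen points with two or no points on every line of four directions
-/

namespace Pool.Agent.Results.MP_17a11e_co.FourteenPoints

/-- `S` is admissible for the four directions horizontal, vertical, slope `1` and slope `-1` and
`r = 2`: every horizontal line `y = c`, vertical line `x = c`, line `y - x = c` and line
`y + x = c` contains either no point or exactly two points of `S`. -/
def Admissible (S : Set (ℝ × ℝ)) : Prop :=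
  ∀ c : ℝ,
    ((S ∩ {p | p.2 = c}).ncard = 0 ∨ (S ∩ {p | p.2 = c}).ncard = 2) ∧
    ((S ∩ {p | p.1 = c}).ncard = 0 ∨ (S ∩ {p | p.1 = c}).ncard = 2) ∧
    ((S ∩ {p | p.2 - p.1 = c}).ncard = 0 ∨ (S ∩ {p | p.2 - p.1 = c}).ncard = 2) ∧
    ((S ∩ {p | p.2 + p.1 = c}).ncard = 0 ∨ (S ∩ {p | p.2 + p.1 = c}).ncard = 2)

/-- The fourteen points. -/
def S₀ : Finset (ℤ × ℤ) :=
  {(0, 2), (0, 3), (1, 4), (1, 6), (2, 0), (2, 7), (3, 0), (3, 2), (4, 3), (4, 5), (5, 6), (5, 7),
    (7, 4), (7, 5)}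

/-- The inclusion of the integer lattice. -/
def ι (p : ℤ × ℤ) : ℝ × ℝ := ((p.1 : ℝ), (p.2 : ℝ))

lemma ι_inj : Function.Injective ι := by
  intro p q h
  have h1 := congrArg Prod.fst h
  have h2 := congrArg Prod.snd h
  simp only [ι] at h1 h2
  exact Prod.ext (by exact_mod_cast h1) (by exact_mod_cast h2)

lemma count (a b : ℤ) (hab : ∀ p ∈ S₀, (S₀.filter (fun q => a * q.1 + b * q.2
    = a * p.1 + b * p.2)).card = 2) (T : Set (ℝ × ℝ)) (c : ℝ)
    (hT : ∀ p : ℝ × ℝ, p ∈ T ↔ (a : ℝ) * p.1 + b * p.2 = c) :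
    ((ι '' (S₀ : Set (ℤ × ℤ))) ∩ T).ncard = 0 ∨ ((ι '' (S₀ : Set (ℤ × ℤ))) ∩ T).ncard = 2 := by
  by_cases h : ((ι '' (S₀ : Set (ℤ × ℤ))) ∩ T) = ∅
  · left
    rw [h, Set.ncard_empty]
  · right
    obtain ⟨x, ⟨p, hp, rfl⟩, hx⟩ := Set.nonempty_iff_ne_empty.mpr h
    rw [hT] at hx
    have e : ((ι '' (S₀ : Set (ℤ × ℤ))) ∩ T)
        = ι '' ((S₀.filter (fun q => a * q.1 + b * q.2 = a * p.1 + b * p.2) :
          Finset (ℤ × ℤ)) : Set (ℤ × ℤ)) := by
      ext y
      constructor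
      · rintro ⟨⟨q, hq, rfl⟩, hy⟩
        rw [hT, ← hx] at hy
        refine ⟨q, ?_, rfl⟩
        rw [Finset.mem_coe, Finset.mem_filter]
        refine ⟨hq, ?_⟩
        simp only [ι] at hy
        exact_mod_cast hy
      · rintro ⟨q, hq, rfl⟩
        rw [Finset.mem_coe, Finset.mem_filter] at hq
        refine ⟨⟨q, hq.1, rfl⟩, ?_⟩
        rw [hT, ← hx]
        simp only [ι]
        exact_mod_cast hq.2
    rw [e, Set.ncard_image_of_injective _ ι_inj, Set.ncard_coe_finset]
    exact hab p hp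

/-- Q1: yes. There is an admissible set with exactly 14 points. -/
theorem result : ∃ S : Set (ℝ × ℝ), S.ncard = 14 ∧ Admissible S := by
  refine ⟨ι '' (S₀ : Set (ℤ × ℤ)), ?_, fun c => ⟨?_, ?_, ?_, ?_⟩⟩
  · rw [Set.ncard_image_of_injective _ ι_inj, Set.ncard_coe_finset]
    decide
  · exact count 0 1 (by decide) _ c (fun p => by simp)
  · exact count 1 0 (by decide) _ c (fun p => by simp)
  · exact count (-1) 1 (by decide) _ c (fun p => by
      simp only [Set.mem_ofPred_eq]; push_cast; constructor <;> intro h <;> linarith)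
  · exact count 1 1 (by decide) _ c (fun p => by
      simp only [Set.mem_ofPred_eq]; push_cast; constructor <;> intro h <;> linarith)

end Pool.Agent.Results.MP_17a11e_co.FourteenPoints
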